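import Pool.Agent.U307.NIL.Stm2

/-!
# Project NIL, package DIL: dilations of polynomial sequences in nilpotent groups are polynomial
-/

set_option autoImplicit false

namespace Pool.Agent.U15.NIL

open Pool.Agent.U307.NIL Subgroup
open scoped commutatorElement

variable {G : Type} [Group G]

/-- the difference operator of an endomorphism -/
def DT (T : G →* G) (x : G) : G := x⁻¹ * T x

lemma DT_one (T : G →* G) : DT T 1 = 1 := by simp [DT]

lemma iter_one (T : G →* G) (m : ℕ) : (DT T)^[m] 1 = 1 := Function.iterate_fixed (DT_one T) m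

lemma T_eq (T : G →* G) (x : G) : T x = x * DT T x := by simp [DT]

lemma DT_mem {T : G →* G} {C : Subgroup G} (hT : ∀ x ∈ C, T x ∈ C) {x : G} (hx : x ∈ C) :
    DT T x ∈ C := C.mul_mem (C.inv_mem hx) (hT x hx)

lemma DT_mul {T : G →* G} {x y : G} (hc : DT T x ∈ center G) : DT T (x * y) = DT T x * DT T y := by
  have h1 := Subgroup.mem_center_iff.1 hc (y⁻¹)
  simp only [DT] at h1
  simp only [DT, mul_inv_rev, map_mul]
  calc y⁻¹ * x⁻¹ * (T x * T y) = y⁻¹ * (x⁻¹ * T x) * T y := by group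
    _ = (x⁻¹ * T x) * y⁻¹ * T y := by rw [h1]
    _ = _ := by group

lemma iter_mul {T : G →* G} {C : Subgroup G} (hC : C ≤ center G) (hT : ∀ x ∈ C, T x ∈ C) (m : ℕ) :
    ∀ x ∈ C, ∀ y ∈ C, (DT T)^[m] (x * y) = (DT T)^[m] x * (DT T)^[m] y := by
  induction m with
  | zero => intro x _ y _; rfl
  | succ m ih =>
    intro x hx y hy
    rw [Function.iterate_succ_apply, Function.iterate_succ_apply, Function.iterate_succ_apply,
      DT_mul (hC (DT_mem hT hx)), ih _ (DT_mem hT hx) _ (DT_mem hT hy)]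

/-- the elements of `C` killed by the `m`-th difference -/
def kil {T : G →* G} {C : Subgroup G} (hC : C ≤ center G) (hT : ∀ x ∈ C, T x ∈ C) (m : ℕ) :
    Subgroup G where
  carrier := {x | x ∈ C ∧ (DT T)^[m] x = 1}
  mul_mem' := by
    rintro x y ⟨hx, hx'⟩ ⟨hy, hy'⟩
    exact ⟨C.mul_mem hx hy, by rw [iter_mul hC hT m x hx y hy, hx', hy', mul_one]⟩
  one_mem' := ⟨C.one_mem, iter_one T m⟩
  inv_mem' := by
    rintro x ⟨hx, hx'⟩
    refine ⟨C.inv_mem hx, ?_⟩
    have h1 := iter_mul hC hT m x hx x⁻¹ (C.inv_mem hx)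
    rw [mul_inv_cancel, iter_one, hx', one_mul] at h1
    exact h1.symm

lemma comm_left {a a' b : G} (h : ⁅a', b⁆ ∈ center G) : ⁅a * a', b⁆ = ⁅a, b⁆ * ⁅a', b⁆ := by
  have h1 := Subgroup.mem_center_iff.1 h a
  have h2 := Subgroup.mem_center_iff.1 h ⁅a, b⁆
  rw [h2]
  calc ⁅a * a', b⁆ = (a * ⁅a', b⁆) * b * a⁻¹ * b⁻¹ := by
        simp only [commutatorElement_def]; group
    _ = (⁅a', b⁆ * a) * b * a⁻¹ * b⁻¹ := by rw [h1]
    _ = _ := by simp only [commutatorElement_def]; group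

lemma comm_right {a b b' : G} (h : ⁅a, b'⁆ ∈ center G) : ⁅a, b * b'⁆ = ⁅a, b⁆ * ⁅a, b'⁆ := by
  have h1 := Subgroup.mem_center_iff.1 h b⁻¹
  calc ⁅a, b * b'⁆ = a * b * a⁻¹ * (⁅a, b'⁆ * b⁻¹) := by
        simp only [commutatorElement_def]; group
    _ = a * b * a⁻¹ * (b⁻¹ * ⁅a, b'⁆) := by rw [h1]
    _ = _ := by simp only [commutatorElement_def]; group

lemma DT_comm {T : G →* G} {a b : G} (h : ∀ y, ⁅a, y⁆ ∈ center G)
    (h' : ∀ y, ⁅DT T a, y⁆ ∈ center G) :
    DT T ⁅a, b⁆ = ⁅a, DT T b⁆ * (⁅DT T a, b⁆ * ⁅DT T a, DT T b⁆) := by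
  have h1 : T ⁅a, b⁆ = ⁅a, b⁆ * ⁅a, DT T b⁆ * (⁅DT T a, b⁆ * ⁅DT T a, DT T b⁆) := by
    rw [map_commutatorElement, T_eq T a, T_eq T b, comm_left (h' _), comm_right (h _),
      comm_right (h' _)]
  rw [DT, h1, mul_assoc, inv_mul_cancel_left]

lemma comm_iter {T : G →* G} {C Γ : Subgroup G} (hC : C ≤ center G) (hT : ∀ x ∈ C, T x ∈ C)
    (hΓ : ∀ a ∈ Γ, ∀ b, ⁅a, b⁆ ∈ C) (hTΓ : ∀ a ∈ Γ, T a ∈ Γ) (s : ℕ) :
    ∀ (i j : ℕ) (a b : G), i + j ≤ s → a ∈ Γ → (∀ y : G, ⁅(DT T)^[i] a, y⁆ = 1) →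
      (∀ x ∈ Γ, ⁅x, (DT T)^[j] b⁆ = 1) → (DT T)^[s] ⁅a, b⁆ = 1 := by
  induction s with
  | zero =>
    intro i j a b hij ha h1 _
    have : i = 0 := by omega
    subst this
    exact h1 b
  | succ s ih =>
    intro i j a b hij ha h1 h2
    rcases Nat.eq_zero_or_pos i with rfl | hi
    · have h3 : ⁅a, b⁆ = 1 := h1 b
      rw [h3, iter_one]
    rcases Nat.eq_zero_or_pos j with rfl | hj
    · have h3 : ⁅a, b⁆ = 1 := h2 a ha
      rw [h3, iter_one]
    obtain ⟨i, rfl⟩ : ∃ k, i = k + 1 := ⟨i - 1, by omega⟩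
    obtain ⟨j, rfl⟩ : ∃ k, j = k + 1 := ⟨j - 1, by omega⟩
    have ha' : DT T a ∈ Γ := DT_mem hTΓ ha
    have h1' : ∀ y : G, ⁅(DT T)^[i] (DT T a), y⁆ = 1 := fun y => by
      rw [← Function.iterate_succ_apply]; exact h1 y
    have h2' : ∀ x ∈ Γ, ⁅x, (DT T)^[j] (DT T b)⁆ = 1 := fun x hx => by
      rw [← Function.iterate_succ_apply]; exact h2 x hx
    rw [Function.iterate_succ_apply, DT_comm (fun y => hC (hΓ a ha y)) (fun y => hC (hΓ _ ha' y)),
      iter_mul hC hT s _ (hΓ a ha _) _ (C.mul_mem (hΓ _ ha' _) (hΓ _ ha' _)),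
      iter_mul hC hT s _ (hΓ _ ha' _) _ (hΓ _ ha' _),
      ih (i + 1) j a (DT T b) (by omega) ha h1 h2', ih i (j + 1) (DT T a) b (by omega) ha' h1' h2,
      ih i j (DT T a) (DT T b) (by omega) ha' h1' h2', one_mul, one_mul]

/-! ## The induction along the lower central series -/

/-- the lower central series of `G` -/
abbrev lcs (G : Type) [Group G] (n : ℕ) : Subgroup G := (⊤ : Subgroup G).lowerCentralSeries n

lemma lcs_T (T : G →* G) (n : ℕ) {x : G} (hx : x ∈ lcs G n) : T x ∈ lcs G n := by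
  have h1 : T x ∈ (lcs G n).map T := Subgroup.mem_map_of_mem T hx
  rw [Subgroup.map_lowerCentralSeries] at h1
  exact Subgroup.lowerCentralSeries_mono n le_top h1

lemma iter_semi {H : Type} [Group H] (π : G →* H) (T : G →* G) (S : H →* H)
    (h : ∀ x, π (T x) = S (π x)) (m : ℕ) (x : G) : π ((DT T)^[m] x) = (DT S)^[m] (π x) := by
  have h1 : Function.Semiconj π (DT T) (DT S) := fun x => by
    simp only [DT, map_mul, map_inv, h]
  exact (h1.iterate_right m) x

lemma step (T : G →* G) (n M0 M : ℕ) (h0 : ∀ x, (DT T)^[M0] x ∈ commutator G)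
    (h : ∀ a ∈ lcs G n, (DT T)^[M] a ∈ lcs G (n + 1)) :
    ∀ a ∈ lcs G (n + 1), (DT T)^[M + M0] a ∈ lcs G (n + 2) := by
  have : (lcs G (n + 2)).Normal := inferInstance
  let π : G →* G ⧸ lcs G (n + 2) := QuotientGroup.mk' _
  have hBT : lcs G (n + 2) ≤ (lcs G (n + 2)).comap T := fun x hx => lcs_T T _ hx
  let S : G ⧸ lcs G (n + 2) →* G ⧸ lcs G (n + 2) := QuotientGroup.map _ _ T hBT
  have hS : ∀ x, π (T x) = S (π x) := fun x => rfl
  have hπ1 : ∀ x, π x = 1 ↔ x ∈ lcs G (n + 2) := fun x => QuotientGroup.eq_one_iff x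
  have hsurj : Function.Surjective π := QuotientGroup.mk'_surjective _
  have hcomm : ∀ a ∈ lcs G (n + 1), ∀ b, ⁅π a, π b⁆ = 1 := by
    intro a ha b
    rw [← map_commutatorElement, hπ1]
    exact Subgroup.commutator_mem_commutator ha (Subgroup.mem_top b)
  have hC : (lcs G (n + 1)).map π ≤ center (G ⧸ lcs G (n + 2)) := by
    rintro _ ⟨a, ha, rfl⟩
    rw [Subgroup.mem_center_iff]
    intro g
    obtain ⟨b, rfl⟩ := hsurj g
    exact (commutatorElement_eq_one_iff_mul_comm.1 (hcomm a ha b)).symm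
  have hT : ∀ x ∈ (lcs G (n + 1)).map π, S x ∈ (lcs G (n + 1)).map π := by
    rintro _ ⟨a, ha, rfl⟩
    exact ⟨T a, lcs_T T _ ha, rfl⟩
  have hTΓ : ∀ x ∈ (lcs G n).map π, S x ∈ (lcs G n).map π := by
    rintro _ ⟨a, ha, rfl⟩
    exact ⟨T a, lcs_T T _ ha, rfl⟩
  have hΓ : ∀ a ∈ (lcs G n).map π, ∀ b, ⁅a, b⁆ ∈ (lcs G (n + 1)).map π := by
    rintro _ ⟨a, ha, rfl⟩ g
    obtain ⟨b, rfl⟩ := hsurj g
    rw [← map_commutatorElement]
    exact ⟨_, Subgroup.commutator_mem_commutator ha (Subgroup.mem_top b), rfl⟩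
  -- commutators with elements of the commutator subgroup
  have hZ : ∀ x ∈ (lcs G n).map π, ∀ b ∈ commutator G, ⁅x, π b⁆ = 1 := by
    intro x hx b hb
    let f : G ⧸ lcs G (n + 2) →* G ⧸ lcs G (n + 2) :=
      { toFun := fun y => ⁅x, y⁆
        map_one' := by rw [commutatorElement_def]; group
        map_mul' := fun y z => comm_right (hC (hΓ x hx z)) }
    have hf : commutator G ≤ (f.comp π).ker := by
      rw [_root_.commutator_def, Subgroup.commutator_le]
      intro u _ v _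
      rw [MonoidHom.mem_ker, map_commutatorElement, commutatorElement_eq_one_iff_mul_comm]
      exact Subgroup.mem_center_iff.1 (hC (hΓ x hx (π v))) _
    exact hf hb
  have key : lcs G (n + 1) ≤ (kil hC hT (M + M0)).comap π := by
    change ⁅lcs G n, (⊤ : Subgroup G)⁆ ≤ _
    rw [Subgroup.commutator_le]
    intro a ha b _
    rw [Subgroup.mem_comap, map_commutatorElement]
    refine ⟨hΓ _ ⟨a, ha, rfl⟩ _, comm_iter hC hT hΓ hTΓ (M + M0) M M0 _ _ le_rfl ⟨a, ha, rfl⟩ ?_ ?_⟩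
    · intro y
      obtain ⟨y, rfl⟩ := hsurj y
      rw [← iter_semi π T S hS]
      exact hcomm _ (h a ha) y
    · intro x hx
      rw [← iter_semi π T S hS]
      exact hZ x hx _ (h0 b)
  intro a ha
  have h1 := (key ha).2
  rw [← iter_semi π T S hS] at h1
  exact (hπ1 _).1 h1

theorem unip [Group.IsNilpotent G] (T : G →* G) (M0 : ℕ)
    (h0 : ∀ x, (DT T)^[M0] x ∈ commutator G) : ∃ L : ℕ, ∀ x, (DT T)^[L] x = 1 := by
  have h1 : ∀ n : ℕ, ∃ M, ∀ a ∈ lcs G n, (DT T)^[M] a ∈ lcs G (n + 1) := by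
    intro n
    induction n with
    | zero => exact ⟨M0, fun a _ => h0 a⟩
    | succ n ih =>
      obtain ⟨M, hM⟩ := ih
      exact ⟨M + M0, step T n M0 M h0 hM⟩
  have h2 : ∀ n : ℕ, ∃ L, ∀ x, (DT T)^[L] x ∈ lcs G n := by
    intro n
    induction n with
    | zero => exact ⟨0, fun x => Subgroup.mem_top _⟩
    | succ n ih =>
      obtain ⟨L, hL⟩ := ih
      obtain ⟨M, hM⟩ := h1 n
      refine ⟨M + L, fun x => ?_⟩
      rw [Function.iterate_add_apply]
      exact hM _ (hL x)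
  obtain ⟨n, hn⟩ := Subgroup.nilpotent_iff_lowerCentralSeries.1 ‹Group.IsNilpotent G›
  obtain ⟨L, hL⟩ := h2 n
  refine ⟨L, fun x => ?_⟩
  have h3 := hL x
  change _ ∈ (⊤ : Subgroup G).lowerCentralSeries n at h3
  rw [hn] at h3
  exact Subgroup.mem_bot.1 h3

/-! ## The abelianization -/

/-- the endomorphism of the abelianization -/
def ab (T : G →* G) : AddMonoid.End (Additive (Abelianization G)) :=
  MonoidHom.toAdditive (Abelianization.map T)

/-- the class of an element -/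
def cl (x : G) : Additive (Abelianization G) := Additive.ofMul (Abelianization.of x)

lemma cl_surj (y : Additive (Abelianization G)) : ∃ x : G, cl x = y := by
  obtain ⟨x, hx⟩ := QuotientGroup.mk_surjective (Additive.toMul y)
  exact ⟨x, hx⟩

lemma cl_eq_zero (x : G) : cl x = 0 ↔ x ∈ commutator G := by
  rw [← Abelianization.ker_of, MonoidHom.mem_ker]
  rfl

lemma ab_cl (T : G →* G) (x : G) : ab T (cl x) = cl (T x) := rfl

lemma cl_mul (x y : G) : cl (x * y) = cl x + cl y := rfl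

lemma ab_DT (T : G →* G) (m : ℕ) : ∀ x : G, ((ab T - 1) ^ m) (cl x) = cl ((DT T)^[m] x) := by
  induction m with
  | zero => intro x; rfl
  | succ m ih =>
    intro x
    rw [pow_succ, Function.iterate_succ_apply, ← ih]
    change ((ab T - 1) ^ m) ((ab T - 1) (cl x)) = _
    congr 1
    change ab T (cl x) - cl x = cl (x⁻¹ * T x)
    rw [ab_cl, cl_mul, sub_eq_add_neg, add_comm]
    rfl

/-- powers -/
def pw (T : G →* G) : ℕ → (G →* G)
  | 0 => MonoidHom.id G
  | q + 1 => T.comp (pw T q)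

lemma ab_pw (T : G →* G) (q : ℕ) : ab (pw T q) = (ab T) ^ q := by
  induction q with
  | zero =>
    refine AddMonoidHom.ext fun y => ?_
    obtain ⟨x, rfl⟩ := cl_surj y
    rfl
  | succ q ih =>
    rw [pow_succ', ← ih]
    refine AddMonoidHom.ext fun y => ?_
    obtain ⟨x, rfl⟩ := cl_surj y
    rfl

lemma pw_comm (T : G →* G) (K q : ℕ) (h : ∀ x, (DT T)^[K] x ∈ commutator G) :
    ∀ x, (DT (pw T q))^[K] x ∈ commutator G := by
  have h1 : (ab T - 1) ^ K = 0 := by
    refine AddMonoidHom.ext fun y => ?_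
    obtain ⟨x, rfl⟩ := cl_surj y
    exact (ab_DT T K x).trans ((cl_eq_zero _).2 (h x))
  have h2 : (ab (pw T q) - 1) ^ K = 0 := by
    rw [ab_pw, ← mul_geom_sum (ab T) q, Commute.mul_pow, h1, zero_mul]
    refine Commute.sum_right _ _ _ fun i _ => ?_
    exact ((Commute.refl (ab T)).sub_left (Commute.one_left _)).pow_right i
  intro x
  rw [← cl_eq_zero, ← ab_DT, h2]
  rfl

lemma gen_comm (T : G →* G) (K : ℕ) (s : Set G) (hs : Subgroup.closure s = ⊤)
    (h : ∀ x ∈ s, (DT T)^[K] x = 1) : ∀ x, (DT T)^[K] x ∈ commutator G := by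
  intro x
  have hx : x ∈ Subgroup.closure s := by rw [hs]; trivial
  rw [← cl_eq_zero, ← ab_DT]
  induction hx using Subgroup.closure_induction with
  | mem x hx =>
    rw [ab_DT, h x hx]
    rfl
  | one => 
    change ((ab T - 1) ^ K) 0 = 0
    exact map_zero _
  | mul x y _ _ hx hy => rw [cl_mul, map_add, hx, hy, add_zero]
  | inv x _ hx =>
    have : cl x⁻¹ = - cl x := rfl
    rw [this, map_neg, hx, neg_zero]

/-! ## Shifts of sequences -/

/-- the shift -/
def sh (G : Type) [Group G] : (ℕ → G) →* (ℕ → G) where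
  toFun f n := f (n + 1)
  map_one' := rfl
  map_mul' _ _ := rfl

lemma D_eq : (D : (ℕ → G) → (ℕ → G)) = DT (sh G) := rfl

/-- dilation -/
def dil (G : Type) [Group G] (q : ℕ) : (ℕ → G) →* (ℕ → G) where
  toFun f n := f (q * n)
  map_one' := rfl
  map_mul' _ _ := rfl

lemma pw_sh (q : ℕ) (f : ℕ → G) (n : ℕ) : pw (sh G) q f n = f (n + q) := by
  induction q generalizing n with
  | zero => rfl
  | succ q ih =>
    change pw (sh G) q f (n + 1) = _
    rw [ih]
    congr 1
    omega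

theorem t_DIL : S_DIL := by
  intro G _ _ k K hk q t
  have hnil : Group.IsNilpotent (ℕ → G) :=
    Group.isNilpotent_pi_of_bounded_class (Gs := fun _ : ℕ => G) (Group.nilpotencyClass G)
      fun _ => le_rfl
  let H : Subgroup (ℕ → G) := Subgroup.closure (Set.range fun j : ℕ => pw (sh G) j k)
  have hsh : ∀ f ∈ H, sh G f ∈ H := by
    intro f hf
    have h1 : H ≤ H.comap (sh G) := by
      rw [Subgroup.closure_le]
      rintro _ ⟨j, rfl⟩
      exact Subgroup.subset_closure ⟨j + 1, rfl⟩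
    exact h1 hf
  let T : H →* H := ((sh G).comp H.subtype).codRestrict H fun x => hsh _ x.2
  have hT : ∀ x, H.subtype (T x) = sh G (H.subtype x) := fun _ => rfl
  have hpw : ∀ q x, H.subtype (pw T q x) = pw (sh G) q (H.subtype x) := by
    intro q x
    induction q with
    | zero => rfl
    | succ q ih =>
      change sh G (H.subtype (pw T q x)) = sh G (pw (sh G) q (H.subtype x))
      rw [ih]
  let s : Set H := Set.range fun j : ℕ => ⟨pw (sh G) j k, Subgroup.subset_closure ⟨j, rfl⟩⟩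
  have hs : Subgroup.closure s = ⊤ := by
    rw [← Subgroup.map_subtype_inj, MonoidHom.map_closure]
    have e1 : H.subtype '' s = Set.range fun j : ℕ => pw (sh G) j k := by
      ext f
      constructor
      · rintro ⟨_, ⟨j, rfl⟩, rfl⟩
        exact ⟨j, rfl⟩
      · rintro ⟨j, rfl⟩
        exact ⟨_, ⟨j, rfl⟩, rfl⟩
    rw [e1, ← MonoidHom.range_eq_map, Subgroup.range_subtype]
  have hkil : ∀ x ∈ s, (DT T)^[K] x = 1 := by
    rintro _ ⟨j, rfl⟩
    apply H.subtype_injective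
    rw [iter_semi H.subtype T (sh G) hT]
    change (DT (sh G))^[K] (pw (sh G) j k) = 1
    have e1 : ∀ x, pw (sh G) j (sh G x) = sh G (pw (sh G) j x) := by
      intro x
      funext n
      rw [pw_sh]
      change _ = pw (sh G) j x (n + 1)
      rw [pw_sh]
      change x (n + j + 1) = _
      congr 1
      omega
    rw [← iter_semi (pw (sh G) j) (sh G) (sh G) e1, ← D_eq, hk]
    exact map_one _
  have h1 := gen_comm T K s hs hkil
  have h2 := pw_comm T K q h1
  obtain ⟨L, hL⟩ := unip (pw T q) K h2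
  refine ⟨L, ?_⟩
  have h3 : (DT (pw (sh G) q))^[L] (pw (sh G) t k) = 1 := by
    have h4 := hL ⟨pw (sh G) t k, Subgroup.subset_closure ⟨t, rfl⟩⟩
    have h5 := congrArg H.subtype h4
    rw [iter_semi H.subtype (pw T q) (pw (sh G) q) (hpw q), map_one] at h5
    exact h5
  have h6 : ∀ x, dil G q (pw (sh G) q x) = sh G (dil G q x) := by
    intro x
    funext n
    change pw (sh G) q x (q * n) = x (q * (n + 1))
    rw [pw_sh]
    congr 1
  have h7 := congrArg (dil G q) h3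
  rw [iter_semi (dil G q) (pw (sh G) q) (sh G) h6, map_one] at h7
  have h8 : dil G q (pw (sh G) t k) = fun n => k (q * n + t) := by
    funext n
    change pw (sh G) t k (q * n) = _
    rw [pw_sh]
  rw [h8] at h7
  exact h7

end Pool.Agent.U15.NIL
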